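import Pool.Agent.Lib.MP_c8715f_al.Main

open Pool.Agent.Lib.MP_c8715f_al

namespace Pool.Agent.Results.MP_c8715f_al.NotSGroup

/-- There is a non-separable metrizable (hence Frechet-Urysohn and sequential) Hausdorff Abelian
topological group whose Pontryagin dual, with the compact-open topology, is not an s-group. -/
theorem result : ∃ (G : Type) (_ : AddCommGroup G) (_ : TopologicalSpace G),
    IsTopologicalAddGroup G ∧ T2Space G ∧ TopologicalSpace.MetrizableSpace G ∧
    FrechetUrysohnSpace G ∧ SequentialSpace G ∧ ¬ TopologicalSpace.SeparableSpace G ∧
    ¬ IsSGroup (PontryaginDual (Multiplicative G)) :=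
  ⟨G, inferInstance, inferInstance, inferInstance, inferInstance, inferInstance, inferInstance,
    inferInstance, not_separable, not_isSGroup⟩

end Pool.Agent.Results.MP_c8715f_al.NotSGroup
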